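import Pool.Agent.V5helper9.CS.AV

/-!
# Job G1 (Step 4)
-/

set_option autoImplicit false
set_option linter.unusedSectionVars false

open Finset
open scoped RealInnerProductSpace

namespace Pool.Agent.V5helper9.CS
open Pool.Agent.V5helper68.CS

section gen
variable {I : Type} [Fintype I] [DecidableEq I] {E : Type} [NormedAddCommGroup E]
  [InnerProductSpace ℝ E]

theorem av_inner (Q : Finset I) (u v : I → E) :
    av (fun ε : I → Bool => ⟪∑ q ∈ Q, sg (ε q) • u q, ∑ q ∈ Q, sg (ε q) • v q⟫) =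
      ∑ q ∈ Q, ⟪u q, v q⟫ := by
  rw [← jobA1 I Q (fun q q' => ⟪u q, v q'⟫)]
  congr 1; funext ε
  simp only [sum_inner, inner_sum, real_inner_smul_left, real_inner_smul_right]
  rw [Finset.sum_comm]
  refine Finset.sum_congr rfl fun q _ => Finset.sum_congr rfl fun q' _ => ?_
  ring

theorem av_norm_sq (Q : Finset I) (v : I → E) :
    av (fun ε : I → Bool => ‖∑ q ∈ Q, sg (ε q) • v q‖ ^ 2) = ∑ q ∈ Q, ‖v q‖ ^ 2 := by
  simp only [← real_inner_self_eq_norm_sq]
  exact av_inner Q v v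

end gen

section ops
variable {I V : Type} [Fintype I] [DecidableEq I] [NormedAddCommGroup V]
    [InnerProductSpace ℝ V] (P : Prof I V)

/-- `e_p ⊗ e₀` -/
noncomputable def fb (p : I) : EE I V := WithLp.toLp 2 (Pi.single p P.e₀)

/-- `∑ ε_p e_p ⊗ e₀` -/
noncomputable def wv (ε : I → Bool) : EE I V := WithLp.toLp 2 (fun p => sg (ε p) • P.e₀)

theorem norm_fb (p : I) : ‖fb P p‖ = 1 := by
  exact (PiLp.norm_single 2 (fun _ : I => V) p P.e₀).trans P.ne0

theorem Os_fb (p : I) : P.Os (fb P p) = 0 := by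
  ext q
  simp only [Prof.Os, norm_fb]
  by_cases h : q = p
  · subst h
    have : (fb P q) q = P.e₀ := by simp [fb]
    rw [this, P.ne0]
    simp [P.zero]
  · have : (fb P p) q = 0 := by simp [fb, h]
    rw [this]; simp

theorem norm_wv (ε : I → Bool) : ‖wv P ε‖ = Real.sqrt (Fintype.card I) := by
  rw [PiLp.norm_eq_of_L2]
  congr 1
  have : ∀ p, ‖wv P ε p‖ ^ 2 = 1 := by
    intro p
    simp only [wv, norm_smul, P.ne0, mul_one, Real.norm_eq_abs, sg_abs]
    norm_num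
  simp [this]

theorem Os_wv (ε : I → Bool) : P.Os (wv P ε) = WithLp.toLp 2 (fun p => lam P * sg (ε p)) := by
  ext q
  have h1 : ‖wv P ε q‖ = 1 := by
    simp only [wv, norm_smul, P.ne0, mul_one, Real.norm_eq_abs, sg_abs]
  rw [Os_flat P _ q (Or.inr h1), norm_wv, Real.log_sqrt (by positivity), P.top q]
  simp only [wv, real_inner_smul_left, real_inner_smul_right, real_inner_self_eq_norm_sq, P.ne0,
    lam]
  ring

theorem wv_eq (ε : I → Bool) : wv P ε = ∑ p, sg (ε p) • fb P p := by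
  ext q
  simp only [wv, fb, PiLp.smul_apply, WithLp.ofLp_sum, Finset.sum_apply]
  rw [Finset.sum_eq_single q]
  · simp
  · intro p _ hp
    simp [Pi.single_eq_of_ne (Ne.symm hp)]
  · simp

theorem sv_eq (ε : I → Bool) (c : ℝ) :
    (WithLp.toLp 2 (fun p => c * sg (ε p)) : HH I) = c • ∑ p, sg (ε p) • eb p := by
  ext q
  simp only [eb, PiLp.smul_apply, WithLp.ofLp_sum, Finset.sum_apply, smul_eq_mul]
  congr 1
  rw [Finset.sum_eq_single q]
  · simp
  · intro p _ hp
    simp [hp.symm]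
  · simp

/-- embedding of `E` -/
noncomputable def inE : EE I V →ₗ[ℝ] XS P where
  toFun y := mk P y 0
  map_add' x y := XS.ext' (by simp) (by simp)
  map_smul' a x := XS.ext' (by simp) (by simp)

theorem inE_apply (y : EE I V) : inE P y = mk P y 0 := rfl

theorem norm_inE (y : EE I V) : ‖inE P y‖ = ‖y‖ := norm_y0 P y

theorem sgsum_le (Q : Finset I) (ε : I → Bool) (d : I → ℝ) (R : ℝ) (hR : 0 ≤ R)
    (hd : ∀ q ∈ Q, |d q| ≤ R) :
    ‖zz P (∑ q ∈ Q, sg (ε q) • (d q • eb q))‖ ≤ R * Real.sqrt (Fintype.card I) := by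
  rcases hR.eq_or_lt with h | h
  · have : ∑ q ∈ Q, sg (ε q) • (d q • eb q) = (0 : HH I) := by
      refine Finset.sum_eq_zero fun q hq => ?_
      have : d q = 0 := by
        have := hd q hq
        rw [← h] at this
        exact abs_nonpos_iff.mp this
      rw [this]; simp
    rw [this, ← h]; simp
  · have h1 : ∑ q ∈ Q, sg (ε q) • (d q • eb q) =
        R • ((R⁻¹ • ∑ q ∈ Q, sg (ε q) • (d q • eb q)) : HH I) := by
      rw [smul_smul, mul_inv_cancel₀ h.ne', one_smul]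
    rw [h1, map_smul, norm_smul, Real.norm_eq_abs, abs_of_pos h]
    refine mul_le_mul_of_nonneg_left (norm_zz P _ fun p => ?_) hR
    simp only [PiLp.smul_apply, WithLp.ofLp_sum, Finset.sum_apply, smul_eq_mul, eb]
    by_cases hp : p ∈ Q
    · rw [Finset.sum_eq_single p]
      · simp only [PiLp.single_apply, if_true, mul_one]
        rw [abs_mul, abs_mul, sg_abs, one_mul, abs_inv, abs_of_pos h, inv_mul_le_iff₀ h, mul_one]
        exact hd p hp
      · intro q _ hq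
        simp [hq.symm]
      · intro h'; exact absurd hp h'
    · rw [Finset.sum_eq_zero]
      · simp
      · intro q hq
        have : p ≠ q := fun h' => hp (h' ▸ hq)
        simp [this]

theorem norm_gQ (Q : Finset I) (ε : I → Bool) :
    ‖(∑ q ∈ Q, sg (ε q) • eb q : HH I)‖ ≤ Real.sqrt (Fintype.card I) := by
  refine Real.le_sqrt_of_sq_le ?_
  rw [EuclideanSpace.real_norm_sq_eq]
  have : ∀ p, (∑ q ∈ Q, sg (ε q) • eb q : HH I) p ^ 2 ≤ 1 := by
    intro p
    simp only [PiLp.smul_apply, WithLp.ofLp_sum, Finset.sum_apply, smul_eq_mul, eb]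
    by_cases hp : p ∈ Q
    · rw [Finset.sum_eq_single p]
      · simp only [PiLp.single_apply, if_true, mul_one]
        rw [sq, sg_sq]
      · intro q _ hq
        simp [hq.symm]
      · intro h'; exact absurd hp h'
    · rw [Finset.sum_eq_zero]
      · simp
      · intro q hq
        have : p ≠ q := fun h' => hp (h' ▸ hq)
        simp [this]
  calc ∑ p, (∑ q ∈ Q, sg (ε q) • eb q : HH I) p ^ 2 ≤ ∑ _p : I, (1 : ℝ) :=
        Finset.sum_le_sum fun p _ => this p
    _ = Fintype.card I := by simp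

variable [FiniteDimensional ℝ V]

/-- `C y = (T (y, 0)).2` -/
noncomputable def Cm (T : XS P →ₗ[ℝ] XS P) : EE I V →ₗ[ℝ] HH I := (sn P).comp (T.comp (inE P))
/-- `A y = (T (y, 0)).1` -/
noncomputable def Am (T : XS P →ₗ[ℝ] XS P) : EE I V →ₗ[ℝ] EE I V := (fs P).comp (T.comp (inE P))

theorem norm_le_of_inner {E : Type} [NormedAddCommGroup E] [InnerProductSpace ℝ E] (v : E)
    {C : ℝ} (hC : 0 ≤ C) (h : ∀ y, |⟪v, y⟫| ≤ C * ‖y‖) : ‖v‖ ≤ C := by
  have h1 := h v
  rw [real_inner_self_eq_norm_sq, abs_of_nonneg (sq_nonneg _)] at h1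
  rcases (norm_nonneg v).eq_or_lt with h0 | h0
  · rw [← h0]; exact hC
  · nlinarith

theorem adj_fb {T : XS P →ₗ[ℝ] XS P} {K : ℝ} (hK : 0 ≤ K) (hT : Bd T K) (p : I) :
    ‖LinearMap.adjoint (Am P T) (fb P p)‖ ≤ K := by
  refine norm_le_of_inner _ hK fun y => ?_
  rw [LinearMap.adjoint_inner_left]
  have h1 := tf_le P (T (inE P y)) (fb P p)
  rw [tf, Os_fb, inner_zero_right, sub_zero, norm_fb, mul_one] at h1
  rw [real_inner_comm]
  have h2 := hT (inE P y)
  rw [norm_inE] at h2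
  exact h1.trans h2

theorem adj_wv {T : XS P →ₗ[ℝ] XS P} {K : ℝ} (hK : 0 ≤ K) (hT : Bd T K) (ε : I → Bool) :
    ‖LinearMap.adjoint (Am P T) (wv P ε) -
      lam P • LinearMap.adjoint (Cm P T) (∑ p, sg (ε p) • eb p)‖ ≤
        K * Real.sqrt (Fintype.card I) := by
  refine norm_le_of_inner _ (by positivity) fun y => ?_
  rw [inner_sub_left, real_inner_smul_left, LinearMap.adjoint_inner_left,
    LinearMap.adjoint_inner_left]
  have h1 := tf_le P (T (inE P y)) (wv P ε)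
  rw [tf, Os_wv, norm_wv, sv_eq, real_inner_smul_right] at h1
  have h2 := hT (inE P y)
  rw [norm_inE] at h2
  have h3 : |⟪wv P ε, Am P T y⟫ - lam P * ⟪∑ p, sg (ε p) • eb p, Cm P T y⟫| ≤
      ‖T (inE P y)‖ * Real.sqrt (Fintype.card I) := by
    rw [real_inner_comm, real_inner_comm (Cm P T y)]
    exact h1
  refine h3.trans ?_
  have := mul_le_mul_of_nonneg_right h2 (Real.sqrt_nonneg (Fintype.card I : ℝ))
  linarith

theorem adj_sum {T : XS P →ₗ[ℝ] XS P} {K : ℝ} (hK : 0 ≤ K) (hT : Bd T K) (hl : 0 < lam P) :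
    ∑ p, ‖LinearMap.adjoint (Cm P T) (eb p)‖ ^ 2 ≤ 4 * K ^ 2 * Fintype.card I / lam P ^ 2 := by
  have h1 : ∑ p, ‖LinearMap.adjoint (Am P T) (fb P p) -
      lam P • LinearMap.adjoint (Cm P T) (eb p)‖ ^ 2 ≤ K ^ 2 * Fintype.card I := by
    rw [← av_norm_sq]
    have h2 : av (fun ε : I → Bool => ‖∑ q, sg (ε q) • (LinearMap.adjoint (Am P T) (fb P q) -
        lam P • LinearMap.adjoint (Cm P T) (eb q))‖ ^ 2) ≤
        av (fun _ : I → Bool => K ^ 2 * Fintype.card I) := by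
      refine av_mono fun ε => ?_
      have h3 : ∑ q, sg (ε q) • (LinearMap.adjoint (Am P T) (fb P q) -
          lam P • LinearMap.adjoint (Cm P T) (eb q)) =
          LinearMap.adjoint (Am P T) (wv P ε) -
            lam P • LinearMap.adjoint (Cm P T) (∑ p, sg (ε p) • eb p) := by
        rw [wv_eq, map_sum, map_sum, Finset.smul_sum, ← Finset.sum_sub_distrib]
        refine Finset.sum_congr rfl fun q _ => ?_
        rw [map_smul, map_smul, smul_sub, smul_comm]
      rw [h3]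
      have h4 := pow_le_pow_left₀ (norm_nonneg _) (adj_wv P hK hT ε) 2
      rw [mul_pow, Real.sq_sqrt (by positivity)] at h4
      exact h4
    rwa [av_const] at h2
  have h2 : ∑ p, ‖LinearMap.adjoint (Am P T) (fb P p)‖ ^ 2 ≤ K ^ 2 * Fintype.card I := by
    calc ∑ p, ‖LinearMap.adjoint (Am P T) (fb P p)‖ ^ 2 ≤ ∑ _p : I, K ^ 2 :=
          Finset.sum_le_sum fun p _ => pow_le_pow_left₀ (norm_nonneg _) (adj_fb P hK hT p) 2
      _ = K ^ 2 * Fintype.card I := by
          rw [Finset.sum_const, Finset.card_univ, nsmul_eq_mul]; ring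
  rw [le_div_iff₀ (by positivity), Finset.sum_mul]
  have h3 : ∀ p ∈ (Finset.univ : Finset I), ‖LinearMap.adjoint (Cm P T) (eb p)‖ ^ 2 * lam P ^ 2 ≤
      2 * ‖LinearMap.adjoint (Am P T) (fb P p) - lam P • LinearMap.adjoint (Cm P T) (eb p)‖ ^ 2 +
      2 * ‖LinearMap.adjoint (Am P T) (fb P p)‖ ^ 2 := by
    intro p _
    set u := LinearMap.adjoint (Am P T) (fb P p)
    set v := LinearMap.adjoint (Cm P T) (eb p)
    have h4 : ‖lam P • v‖ ≤ ‖u - lam P • v‖ + ‖u‖ := by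
      have := norm_sub_le u (u - lam P • v)
      rw [sub_sub_cancel] at this
      linarith
    rw [norm_smul, Real.norm_eq_abs, abs_of_pos hl] at h4
    have h5 := pow_le_pow_left₀ (by positivity) h4 2
    nlinarith [sq_nonneg (‖u - lam P • v‖ - ‖u‖)]
  refine (Finset.sum_le_sum h3).trans ?_
  rw [Finset.sum_add_distrib, ← Finset.mul_sum, ← Finset.mul_sum]
  linarith

theorem jobG1' {T : XS P →ₗ[ℝ] XS P} {K δ : ℝ} (hK : 1 ≤ K) (hδ : 0 < δ) (hl : 0 < lam P)
    (hT : Bd T K) (Q : Finset I)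
    (h1 : ∀ q ∈ Q, ∑ p ∈ univ.erase q, Dm P T p q ^ 2 ≤ δ ^ 2)
    (h2 : ∀ q ∈ Q, |Dm P T q q| ≤ 3 * K) :
    -((K * δ + 16 * K ^ 2 / lam P) * Fintype.card I) ≤
      ∑ q ∈ Q, sn P (T (T (zz P (eb q)))) q := by
  have hK0 : 0 ≤ K := by linarith
  set k : ℝ := (Fintype.card I : ℝ) with hk
  have hk0 : 0 ≤ k := by positivity
  set g : (I → Bool) → HH I := fun ε => ∑ q ∈ Q, sg (ε q) • eb q with hg
  set dg : (I → Bool) → HH I := fun ε => ∑ q ∈ Q, sg (ε q) • (Dm P T q q • eb q) with hdg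
  set z : (I → Bool) → XS P := fun ε => T (zz P (g ε)) - zz P (dg ε) with hz
  set v : I → HH I := fun q => sn P (T (zz P (eb q))) - Dm P T q q • eb q with hv
  have hξ : ∀ ε, sn P (z ε) = ∑ q ∈ Q, sg (ε q) • v q := by
    intro ε
    simp only [hz, hg, hdg, hv, map_sub, map_sum, map_smul, smul_sub, Finset.sum_sub_distrib]
    rfl
  have hvn : ∀ q ∈ Q, ‖v q‖ ^ 2 ≤ δ ^ 2 := by
    intro q hq
    refine le_trans (le_of_eq ?_) (h1 q hq)
    rw [EuclideanSpace.real_norm_sq_eq]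
    rw [← Finset.add_sum_erase Finset.univ _ (Finset.mem_univ q)]
    have e1 : v q q = 0 := by
      simp [hv, eb, Dm]
    rw [e1]
    simp only [ne_eq, OfNat.ofNat_ne_zero, not_false_eq_true, zero_pow, zero_add]
    refine Finset.sum_congr rfl fun p hp => ?_
    have hp' : p ≠ q := Finset.ne_of_mem_erase hp
    simp [hv, eb, Dm, hp']
  have hξa : av (fun ε => ‖sn P (z ε)‖ ^ 2) ≤ δ ^ 2 * k := by
    simp only [hξ]
    rw [av_norm_sq]
    calc ∑ q ∈ Q, ‖v q‖ ^ 2 ≤ ∑ _q ∈ Q, δ ^ 2 := Finset.sum_le_sum hvn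
      _ = δ ^ 2 * Q.card := by rw [Finset.sum_const, nsmul_eq_mul]; ring
      _ ≤ δ ^ 2 * k := by
        refine mul_le_mul_of_nonneg_left ?_ (sq_nonneg δ)
        rw [hk]; exact_mod_cast Finset.card_le_univ Q
  have hzn : ∀ ε, ‖z ε‖ ≤ 4 * K * Real.sqrt k := by
    intro ε
    have e1 : ‖T (zz P (g ε))‖ ≤ K * Real.sqrt k := by
      refine (hT _).trans (mul_le_mul_of_nonneg_left ?_ hK0)
      have := sgsum_le P Q ε (fun _ => 1) 1 zero_le_one (fun _ _ => by simp)
      simpa [hg] using this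
    have e2 : ‖zz P (dg ε)‖ ≤ 3 * K * Real.sqrt k :=
      sgsum_le P Q ε (fun q => Dm P T q q) (3 * K) (by positivity) h2
    calc ‖z ε‖ ≤ ‖T (zz P (g ε))‖ + ‖zz P (dg ε)‖ := norm_sub_le _ _
      _ ≤ 4 * K * Real.sqrt k := by linarith
  -- decomposition
  set u : (I → Bool) → EE I V := fun ε => fs P (z ε) - P.Om (sn P (z ε)) with hu
  have hun : ∀ ε, ‖u ε‖ ≤ 8 * K * Real.sqrt k := by
    intro ε
    have e1 := Om_le2 P (z ε)
    have e2 := hzn ε
    calc ‖u ε‖ ≤ 2 * ‖z ε‖ := e1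
      _ ≤ _ := by linarith
  have hdec : ∀ ε, z ε = mk P (P.Om (sn P (z ε))) (sn P (z ε)) + inE P (u ε) := by
    intro ε
    refine XS.ext' ?_ ?_
    · rw [map_add, inE_apply, fs_mk, fs_mk]
      simp [hu]
    · rw [map_add, inE_apply, sn_mk, sn_mk, add_zero]
  set Cs := LinearMap.adjoint (Cm P T) with hCs
  have hpt : ∀ ε, ⟪g ε, sn P (T (zz P (dg ε)))⟫ - (Real.sqrt k * K) * ‖sn P (z ε)‖ -
      (8 * K * Real.sqrt k) * ‖∑ q ∈ Q, sg (ε q) • Cs (eb q)‖ ≤
      ⟪g ε, sn P (T (T (zz P (g ε))))⟫ := by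
    intro ε
    have e0 : T (zz P (g ε)) = zz P (dg ε) + (mk P (P.Om (sn P (z ε))) (sn P (z ε)) +
        inE P (u ε)) := by
      rw [← hdec]; simp [hz]
    have e1 : ⟪g ε, sn P (T (T (zz P (g ε))))⟫ = ⟪g ε, sn P (T (zz P (dg ε)))⟫ +
        (⟪g ε, sn P (T (mk P (P.Om (sn P (z ε))) (sn P (z ε))))⟫ +
          ⟪g ε, sn P (T (inE P (u ε)))⟫) := by
      rw [e0]; simp only [map_add, inner_add_right]
    have e2 : |⟪g ε, sn P (T (mk P (P.Om (sn P (z ε))) (sn P (z ε))))⟫| ≤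
        Real.sqrt k * (K * ‖sn P (z ε)‖) := by
      refine (abs_real_inner_le_norm _ _).trans (mul_le_mul (norm_gQ Q ε) ?_ (norm_nonneg _)
        (Real.sqrt_nonneg _))
      refine (sn_le P _).trans ((hT _).trans (mul_le_mul_of_nonneg_left (norm_Om P _) hK0))
    have e3 : |⟪g ε, sn P (T (inE P (u ε)))⟫| ≤
        ‖∑ q ∈ Q, sg (ε q) • Cs (eb q)‖ * (8 * K * Real.sqrt k) := by
      have e4 : ⟪g ε, sn P (T (inE P (u ε)))⟫ = ⟪∑ q ∈ Q, sg (ε q) • Cs (eb q), u ε⟫ := by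
        have e5 : ∑ q ∈ Q, sg (ε q) • Cs (eb q) = Cs (g ε) := by
          simp only [hg, map_sum, map_smul]
        rw [e5, hCs, LinearMap.adjoint_inner_left]
        rfl
      rw [e4]
      exact (abs_real_inner_le_norm _ _).trans (mul_le_mul_of_nonneg_left (hun ε) (norm_nonneg _))
    rw [e1]
    have := neg_abs_le ⟪g ε, sn P (T (mk P (P.Om (sn P (z ε))) (sn P (z ε))))⟫
    have := neg_abs_le ⟪g ε, sn P (T (inE P (u ε)))⟫
    linarith
  have hav := av_mono hpt
  rw [av_sub, av_sub, av_mul_left, av_mul_left] at hav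
  -- the right side
  have r1 : av (fun ε => ⟪g ε, sn P (T (T (zz P (g ε))))⟫) =
      ∑ q ∈ Q, sn P (T (T (zz P (eb q)))) q := by
    have e1 : ∀ ε, sn P (T (T (zz P (g ε)))) =
        ∑ q ∈ Q, sg (ε q) • sn P (T (T (zz P (eb q)))) := by
      intro ε; simp only [hg, map_sum, map_smul]
    simp only [e1]
    simp only [hg]
    rw [av_inner]
    refine Finset.sum_congr rfl fun q _ => ?_
    simp [eb, EuclideanSpace.inner_single_left]
  have r2 : 0 ≤ av (fun ε => ⟪g ε, sn P (T (zz P (dg ε)))⟫) := by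
    have e1 : ∀ ε, sn P (T (zz P (dg ε))) =
        ∑ q ∈ Q, sg (ε q) • (Dm P T q q • sn P (T (zz P (eb q)))) := by
      intro ε; simp only [hdg, map_sum, map_smul]
    simp only [e1]
    simp only [hg]
    rw [av_inner]
    refine Finset.sum_nonneg fun q _ => ?_
    simp only [eb, EuclideanSpace.inner_single_left, map_one, one_mul, PiLp.smul_apply,
      smul_eq_mul]
    have : (sn P (T (zz P (EuclideanSpace.single q 1)))) q = Dm P T q q := rfl
    rw [this]
    exact mul_self_nonneg _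
  have r3 : av (fun ε => ‖sn P (z ε)‖) ≤ δ * Real.sqrt k := by
    refine (av_le_sqrt _).trans ?_
    refine (Real.sqrt_le_sqrt hξa).trans (le_of_eq ?_)
    rw [Real.sqrt_mul (sq_nonneg δ), Real.sqrt_sq hδ.le]
  have r4 : av (fun ε : I → Bool => ‖∑ q ∈ Q, sg (ε q) • Cs (eb q)‖) ≤
      2 * K * Real.sqrt k / lam P := by
    refine (av_le_sqrt _).trans ?_
    rw [av_norm_sq]
    have e1 : ∑ q ∈ Q, ‖Cs (eb q)‖ ^ 2 ≤ (2 * K * Real.sqrt k / lam P) ^ 2 := by
      refine (Finset.sum_le_sum_of_subset_of_nonneg (Finset.subset_univ Q)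
        fun _ _ _ => sq_nonneg _).trans ((adj_sum P hK0 hT hl).trans (le_of_eq ?_))
      rw [div_pow, mul_pow, mul_pow, Real.sq_sqrt hk0]
      ring
    refine (Real.sqrt_le_sqrt e1).trans (le_of_eq ?_)
    exact Real.sqrt_sq (by positivity)
  rw [r1] at hav
  have hs : Real.sqrt k * Real.sqrt k = k := Real.mul_self_sqrt hk0
  have f1 : (Real.sqrt k * K) * av (fun ε => ‖sn P (z ε)‖) ≤ K * δ * k := by
    calc (Real.sqrt k * K) * av (fun ε => ‖sn P (z ε)‖) ≤
        (Real.sqrt k * K) * (δ * Real.sqrt k) := mul_le_mul_of_nonneg_left r3 (by positivity)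
      _ = K * δ * (Real.sqrt k * Real.sqrt k) := by ring
      _ = K * δ * k := by rw [hs]
  have f2 : (8 * K * Real.sqrt k) * av (fun ε : I → Bool => ‖∑ q ∈ Q, sg (ε q) • Cs (eb q)‖) ≤
      16 * K ^ 2 / lam P * k := by
    calc (8 * K * Real.sqrt k) * av (fun ε : I → Bool => ‖∑ q ∈ Q, sg (ε q) • Cs (eb q)‖) ≤
        (8 * K * Real.sqrt k) * (2 * K * Real.sqrt k / lam P) :=
          mul_le_mul_of_nonneg_left r4 (by positivity)
      _ = 16 * K ^ 2 / lam P * (Real.sqrt k * Real.sqrt k) := by ring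
      _ = 16 * K ^ 2 / lam P * k := by rw [hs]
  linarith

end ops

theorem jobG1 : JobG1 := by
  intro I V _ _ _ _ _ P T K δ hK hδ hl hT Q h1 h2
  exact jobG1' P hK hδ hl hT Q h1 h2

end Pool.Agent.V5helper9.CS
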