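import Pool.Agent.V5helper68.CS.Jobs

/-!
# Averages over signs and over ternary signs (jobs A1, A2, A3, A4)
-/

set_option autoImplicit false
set_option linter.unusedSectionVars false

open Finset

namespace Pool.Agent.V5helper9.CS
open Pool.Agent.V5helper68.CS

section basic
variable {Ω : Type} [Fintype Ω]

theorem av_add (F G : Ω → ℝ) : av (fun ω => F ω + G ω) = av F + av G := by
  simp only [av, Finset.sum_add_distrib, add_div]

theorem av_sub (F G : Ω → ℝ) : av (fun ω => F ω - G ω) = av F - av G := by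
  simp only [av, Finset.sum_sub_distrib, sub_div]

theorem av_mul_left (c : ℝ) (F : Ω → ℝ) : av (fun ω => c * F ω) = c * av F := by
  simp only [av, ← Finset.mul_sum, mul_div_assoc]

theorem av_mul_right (c : ℝ) (F : Ω → ℝ) : av (fun ω => F ω * c) = av F * c := by
  simp only [av, ← Finset.sum_mul]; ring

theorem av_neg (F : Ω → ℝ) : av (fun ω => -F ω) = -av F := by
  simp only [av, Finset.sum_neg_distrib, neg_div]

theorem av_sum {ι : Type} (s : Finset ι) (F : ι → Ω → ℝ) :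
    av (fun ω => ∑ i ∈ s, F i ω) = ∑ i ∈ s, av (F i) := by
  simp only [av]
  rw [Finset.sum_comm, Finset.sum_div]

theorem av_const [Nonempty Ω] (c : ℝ) : av (fun _ : Ω => c) = c := by
  simp only [av, Finset.sum_const, Finset.card_univ, nsmul_eq_mul]
  have : (Fintype.card Ω : ℝ) ≠ 0 := by exact_mod_cast Fintype.card_ne_zero
  field_simp

theorem av_mono {F G : Ω → ℝ} (h : ∀ ω, F ω ≤ G ω) : av F ≤ av G := by
  simp only [av]
  gcongr with ω _
  exact h ω

theorem av_nonneg {F : Ω → ℝ} (h : ∀ ω, 0 ≤ F ω) : 0 ≤ av F := by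
  simp only [av]
  exact div_nonneg (Finset.sum_nonneg fun ω _ => h ω) (by positivity)

theorem av_equiv (e : Ω ≃ Ω) (F : Ω → ℝ) : av (fun ω => F (e ω)) = av F := by
  simp only [av]
  rw [Equiv.sum_comp e F]

theorem av_sq_le (F : Ω → ℝ) : (av F) ^ 2 ≤ av (fun ω => F ω ^ 2) := by
  rcases isEmpty_or_nonempty Ω with h | h
  · simp [av]
  · have h0 : 0 < (Fintype.card Ω : ℝ) := by exact_mod_cast Fintype.card_pos
    simp only [av, div_pow]
    rw [div_le_div_iff₀ (by positivity) h0]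
    have := sq_sum_le_card_mul_sum_sq (s := (Finset.univ : Finset Ω)) (f := F)
    rw [Finset.card_univ] at this
    nlinarith

theorem av_le_sqrt (F : Ω → ℝ) : av F ≤ Real.sqrt (av (fun ω => F ω ^ 2)) :=
  Real.le_sqrt_of_sq_le (av_sq_le F)

end basic

/-! ## product structure -/

theorem av_prod {I Ω : Type} [Fintype I] [DecidableEq I] [Fintype Ω] (p : I)
    (F : (I → Ω) → ℝ) (hF : ∀ ω x, F (Function.update ω p x) = F ω) (G : Ω → ℝ) :
    av (fun ω : I → Ω => F ω * G (ω p)) = av F * av G := by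
  have h1 : ∑ z : (I → Ω) × Ω, F z.1 * G z.2 = ∑ z : (I → Ω) × Ω, F z.1 * G (z.1 p) := by
    let e : ((I → Ω) × Ω) ≃ ((I → Ω) × Ω) := {
      toFun := fun z => (Function.update z.1 p z.2, z.1 p)
      invFun := fun z => (Function.update z.1 p z.2, z.1 p)
      left_inv := by
        rintro ⟨ω, x⟩
        simp
      right_inv := by
        rintro ⟨ω, x⟩
        simp }
    rw [← Equiv.sum_comp e (fun z => F z.1 * G (z.1 p))]
    refine Finset.sum_congr rfl fun z _ => ?_
    simp [e, hF]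
  rw [Fintype.sum_prod_type, Fintype.sum_prod_type] at h1
  simp only [← Finset.mul_sum, Finset.sum_const, Finset.card_univ, nsmul_eq_mul] at h1
  rw [← Finset.sum_mul] at h1
  have h1' : ∑ x : I → Ω, F x * ((Fintype.card Ω : ℝ) * G (x p)) =
      (Fintype.card Ω : ℝ) * ∑ x : I → Ω, F x * G (x p) := by
    rw [Finset.mul_sum]
    exact Finset.sum_congr rfl fun x _ => by ring
  rw [h1'] at h1
  simp only [av]
  rcases isEmpty_or_nonempty Ω with h | h
  · have hc : (Fintype.card Ω : ℝ) = 0 := by simp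
    have : IsEmpty (I → Ω) := ⟨fun f => h.false (f p)⟩
    simp
  · have h0 : (Fintype.card Ω : ℝ) ≠ 0 := by exact_mod_cast Fintype.card_ne_zero
    have h0' : (Fintype.card (I → Ω) : ℝ) ≠ 0 := by exact_mod_cast Fintype.card_ne_zero
    rw [div_mul_div_comm, h1, mul_comm ((Fintype.card (I → Ω) : ℝ)), mul_div_mul_left _ _ h0]

/-- a symmetric variable -/
structure Sym (Ω : Type) [Fintype Ω] where
  z : Ω → ℝ
  e : Ω ≃ Ω
  ne : Nonempty Ω
  h : ∀ ω, z (e ω) = -z ω

section moments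
variable {Ω : Type} [Fintype Ω] (Z : Sym Ω)

theorem Sym.odd1 : av Z.z = 0 := by
  have h := av_equiv Z.e Z.z
  have h2 : av (fun ω => Z.z (Z.e ω)) = -av Z.z := by
    simp only [Z.h]; exact av_neg _
  linarith

theorem Sym.odd3 : av (fun ω => Z.z ω ^ 3) = 0 := by
  have h := av_equiv Z.e (fun ω => Z.z ω ^ 3)
  have h2 : av (fun ω => Z.z (Z.e ω) ^ 3) = -av (fun ω => Z.z ω ^ 3) := by
    rw [← av_neg]
    congr 1; funext ω; rw [Z.h]; ring
  linarith

variable {I : Type} [Fintype I] [DecidableEq I]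

/-- the sum -/
noncomputable def XX (Q : Finset I) (a : I → ℝ) (ω : I → Ω) : ℝ := ∑ q ∈ Q, Z.z (ω q) * a q

theorem XX_update {Q : Finset I} {p : I} (hp : p ∉ Q) (a : I → ℝ) (ω : I → Ω) (x : Ω) :
    XX Z Q a (Function.update ω p x) = XX Z Q a ω := by
  refine Finset.sum_congr rfl fun q hq => ?_
  have : q ≠ p := fun h => hp (h ▸ hq)
  rw [Function.update_of_ne this]

theorem XX_insert {Q : Finset I} {p : I} (hp : p ∉ Q) (a : I → ℝ) (ω : I → Ω) :
    XX Z (insert p Q) a ω = XX Z Q a ω + Z.z (ω p) * a p := by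
  simp only [XX, Finset.sum_insert hp]; ring

theorem mom2 (Q : Finset I) (a : I → ℝ) :
    av (fun ω : I → Ω => XX Z Q a ω ^ 2) = av (fun ω => Z.z ω ^ 2) * ∑ q ∈ Q, a q ^ 2 := by
  have := Z.ne
  induction Q using Finset.induction_on with
  | empty => simp [XX, av]
  | insert p Q hp ih =>
    have h1 : (fun ω : I → Ω => XX Z (insert p Q) a ω ^ 2) = fun ω : I → Ω =>
        XX Z Q a ω ^ 2 + ((2 * a p) * (XX Z Q a ω * Z.z (ω p)) +
          a p ^ 2 * (1 * Z.z (ω p) ^ 2)) := by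
      funext ω; rw [XX_insert Z hp]; ring
    rw [h1, av_add, av_add, av_mul_left, av_mul_left,
      av_prod p (fun ω => XX Z Q a ω) (fun ω x => XX_update Z hp a ω x) Z.z,
      av_prod p (fun _ : I → Ω => (1 : ℝ)) (fun ω x => rfl) (fun x => Z.z x ^ 2), ih,
      Z.odd1, av_const, Finset.sum_insert hp]
    ring

theorem mom4 (Q : Finset I) (a : I → ℝ) :
    av (fun ω : I → Ω => XX Z Q a ω ^ 4) ≤
      3 * av (fun ω => Z.z ω ^ 2) ^ 2 * (∑ q ∈ Q, a q ^ 2) ^ 2 +
        av (fun ω => Z.z ω ^ 4) * ∑ q ∈ Q, a q ^ 4 := by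
  have := Z.ne
  induction Q using Finset.induction_on with
  | empty => simp [XX, av]
  | insert p Q hp ih =>
    have h1 : (fun ω : I → Ω => XX Z (insert p Q) a ω ^ 4) = fun ω : I → Ω =>
        XX Z Q a ω ^ 4 + ((4 * a p) * (XX Z Q a ω ^ 3 * Z.z (ω p)) +
          ((6 * a p ^ 2) * (XX Z Q a ω ^ 2 * Z.z (ω p) ^ 2) +
          ((4 * a p ^ 3) * (XX Z Q a ω * Z.z (ω p) ^ 3) +
          a p ^ 4 * (1 * Z.z (ω p) ^ 4)))) := by
      funext ω; rw [XX_insert Z hp]; ring
    rw [h1, av_add, av_add, av_add, av_add, av_mul_left, av_mul_left, av_mul_left, av_mul_left,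
      av_prod p (fun ω => XX Z Q a ω ^ 3) (fun ω x => by simp only [XX_update Z hp a ω x]) Z.z,
      av_prod p (fun ω => XX Z Q a ω ^ 2) (fun ω x => by simp only [XX_update Z hp a ω x])
        (fun x => Z.z x ^ 2),
      av_prod p (fun ω => XX Z Q a ω) (fun ω x => by simp only [XX_update Z hp a ω x])
        (fun x => Z.z x ^ 3),
      av_prod p (fun _ : I → Ω => (1 : ℝ)) (fun ω x => rfl) (fun x => Z.z x ^ 4), Z.odd1, Z.odd3,
      av_const, Finset.sum_insert hp, Finset.sum_insert hp, mom2 Z Q a]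
    have h2 : 0 ≤ 3 * av (fun ω => Z.z ω ^ 2) ^ 2 * a p ^ 4 := by positivity
    nlinarith [ih, h2]

theorem u_ineq {x b : ℝ} (hb : 0 < b) : 3 / 2 * (x ^ 2 / b) - 1 / 2 * (x ^ 4 / b ^ 3) ≤ |x| := by
  have h1 : x ^ 2 = |x| ^ 2 := (sq_abs x).symm
  have h2 : x ^ 4 = |x| ^ 4 := by rw [show (4 : ℕ) = 2 * 2 from rfl, pow_mul, pow_mul, h1]
  rw [h1, h2]
  have h0 := abs_nonneg x
  set y := |x| with hy
  rw [← sub_nonneg]
  have h3 : y - (3 / 2 * (y ^ 2 / b) - 1 / 2 * (y ^ 4 / b ^ 3)) =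
      y * ((y - b) ^ 2 * (y + 2 * b)) / (2 * b ^ 3) := by
    field_simp; ring
  rw [h3]; positivity

theorem av_abs_ge (Q : Finset I) (a : I → ℝ) {A2 A4 b : ℝ} (hb : 0 < b)
    (h2 : av (fun ω : I → Ω => XX Z Q a ω ^ 2) = A2)
    (h4 : av (fun ω : I → Ω => XX Z Q a ω ^ 4) ≤ A4) :
    3 / 2 * (A2 / b) - 1 / 2 * (A4 / b ^ 3) ≤ av (fun ω : I → Ω => |XX Z Q a ω|) := by
  have h1 : av (fun ω : I → Ω => 3 / 2 * (XX Z Q a ω ^ 2 / b) -
      1 / 2 * (XX Z Q a ω ^ 4 / b ^ 3)) ≤ av (fun ω : I → Ω => |XX Z Q a ω|) :=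
    av_mono fun ω => u_ineq hb
  simp only [div_eq_mul_inv] at h1 ⊢
  rw [av_sub, av_mul_left, av_mul_left, av_mul_right, av_mul_right, h2] at h1
  refine le_trans ?_ h1
  gcongr

end moments

/-! ## signs -/

theorem sg_sq (b : Bool) : sg b * sg b = 1 := by cases b <;> simp [sg]
theorem sg_abs (b : Bool) : |sg b| = 1 := by cases b <;> simp [sg]
theorem sg_not (b : Bool) : sg (!b) = -sg b := by cases b <;> simp [sg]

/-- a random sign -/
def Sb : Sym Bool where
  z := sg
  e := Equiv.boolNot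
  ne := inferInstance
  h := fun b => by cases b <;> simp [sg]

theorem Sb2 : av (fun b => Sb.z b ^ 2) = 1 := by
  have : (fun b => Sb.z b ^ 2) = fun _ => 1 := by
    funext b; simp only [Sb]; rw [sq, sg_sq]
  rw [this, av_const]

theorem Sb4 : av (fun b => Sb.z b ^ 4) = 1 := by
  have : (fun b => Sb.z b ^ 4) = fun _ => 1 := by
    funext b; simp only [Sb]
    rw [show sg b ^ 4 = (sg b * sg b) ^ 2 by ring, sg_sq]; norm_num
  rw [this, av_const]

theorem av_sg_sg {I : Type} [Fintype I] [DecidableEq I] (q q' : I) :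
    av (fun ε : I → Bool => sg (ε q) * sg (ε q')) = if q = q' then 1 else 0 := by
  split_ifs with h
  · subst h
    simp only [sg_sq]; exact av_const 1
  · have := av_prod (Ω := Bool) q (fun ε : I → Bool => sg (ε q'))
      (fun ω x => by simp only [Function.update_of_ne (Ne.symm h)]) sg
    have h0 : av sg = 0 := Sb.odd1
    rw [h0, mul_zero] at this
    rw [← this]
    congr 1; funext ε; ring

theorem jobA1 : JobA1 := by
  intro I _ _ Q a
  have h1 : (fun ε : I → Bool => ∑ q ∈ Q, ∑ q' ∈ Q, sg (ε q) * sg (ε q') * a q q') =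
      fun ε : I → Bool => ∑ q ∈ Q, (fun ε : I → Bool => ∑ q' ∈ Q,
        (fun ε : I → Bool => sg (ε q) * sg (ε q') * a q q') ε) ε := rfl
  rw [h1, av_sum]
  refine Finset.sum_congr rfl fun q hq => ?_
  rw [av_sum]
  simp only [av_mul_right, av_sg_sg, ite_mul, one_mul, zero_mul]
  rw [Finset.sum_ite_eq]
  simp [hq]

theorem jobA2 : JobA2 := by
  intro I _ _ Q a
  set S := ∑ q ∈ Q, a q ^ 2 with hS
  have hS0 : 0 ≤ S := Finset.sum_nonneg fun q _ => sq_nonneg _
  rcases hS0.eq_or_lt with h | h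
  · rw [← h, Real.sqrt_zero]
    have := av_nonneg (Ω := I → Bool) (F := fun ε => |∑ q ∈ Q, sg (ε q) * a q|)
      (fun _ => abs_nonneg _)
    linarith
  have h2 := mom2 Sb Q a
  have h4 := mom4 Sb Q a
  rw [Sb2, one_mul] at h2
  rw [Sb2, Sb4] at h4
  have h5 : ∑ q ∈ Q, a q ^ 4 ≤ S ^ 2 := by
    have h6 : ∀ q ∈ Q, a q ^ 4 ≤ a q ^ 2 * S := by
      intro q hq
      have h7 : a q ^ 2 ≤ S := Finset.single_le_sum (f := fun q => a q ^ 2)
        (fun _ _ => sq_nonneg _) hq
      have h8 := mul_le_mul_of_nonneg_left h7 (sq_nonneg (a q))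
      calc a q ^ 4 = a q ^ 2 * a q ^ 2 := by ring
        _ ≤ _ := h8
    calc ∑ q ∈ Q, a q ^ 4 ≤ ∑ q ∈ Q, a q ^ 2 * S := Finset.sum_le_sum h6
      _ = S ^ 2 := by rw [← Finset.sum_mul]; ring
  have hb : 0 < 2 * Real.sqrt S := by positivity
  have h6 := av_abs_ge Sb Q a (A4 := 4 * S ^ 2) hb h2 (by nlinarith)
  have h7 : Real.sqrt S ^ 2 = S := Real.sq_sqrt hS0
  have h8 : 3 / 2 * (S / (2 * Real.sqrt S)) - 1 / 2 * (4 * S ^ 2 / (2 * Real.sqrt S) ^ 3) =
      Real.sqrt S / 2 := by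
    have hs : 0 < Real.sqrt S := Real.sqrt_pos.mpr h
    nth_rewrite 1 [← h7]
    nth_rewrite 3 [← h7]
    field_simp
    ring
  rw [h8] at h6
  have h9 : av (fun ω : I → Bool => |XX Sb Q a ω|) =
      av (fun ε : I → Bool => |∑ q ∈ Q, sg (ε q) * a q|) := rfl
  linarith

/-! ## ternary signs -/

/-- a ternary sign -/
def St (n : ℕ) : Sym (Fin (n + 1) × Bool) where
  z := tn n
  e := Equiv.prodCongr (Equiv.refl _) Equiv.boolNot
  ne := inferInstance
  h := fun s => by
    rcases s with ⟨i, b⟩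
    cases b <;> by_cases h : i = 0 <;> simp [tn, sg, h]

theorem tn_pow_sum (n k : ℕ) (hk : k ≠ 0) :
    ∑ s : Fin (n + 1) × Bool, (tn n s ^ 2) ^ k = 2 := by
  rw [Fintype.sum_prod_type, Finset.sum_eq_single (0 : Fin (n + 1))]
  · simp [tn, sg, one_add_one_eq_two]
  · intro i _ hi
    simp [tn, hi, hk]
  · simp

theorem St2 (n : ℕ) : av (fun s => (St n).z s ^ 2) = 1 / (n + 1) := by
  have h := tn_pow_sum n 1 one_ne_zero
  simp only [pow_one] at h
  simp only [av, St]
  rw [h]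
  simp only [Fintype.card_prod, Fintype.card_fin, Fintype.card_bool]
  push_cast
  have : (n : ℝ) + 1 ≠ 0 := by positivity
  field_simp

theorem St4 (n : ℕ) : av (fun s => (St n).z s ^ 4) = 1 / (n + 1) := by
  have h := tn_pow_sum n 2 two_ne_zero
  simp only [← pow_mul] at h
  norm_num at h
  simp only [av, St]
  rw [h]
  simp only [Fintype.card_prod, Fintype.card_fin, Fintype.card_bool]
  push_cast
  have : (n : ℝ) + 1 ≠ 0 := by positivity
  field_simp

/-- flip the signs outside of a set -/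
def flipO {I : Type} [DecidableEq I] (n : ℕ) (Q : Finset I) :
    (I → Fin (n + 1) × Bool) ≃ (I → Fin (n + 1) × Bool) where
  toFun ω := fun q => if q ∈ Q then ω q else (St n).e (ω q)
  invFun ω := fun q => if q ∈ Q then ω q else (St n).e (ω q)
  left_inv ω := by
    funext q
    by_cases h : q ∈ Q
    · simp [h]
    · simp only [h, if_false]
      rcases ω q with ⟨i, b⟩
      simp [St]
  right_inv ω := by
    funext q
    by_cases h : q ∈ Q
    · simp [h]
    · simp only [h, if_false]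
      rcases ω q with ⟨i, b⟩
      simp [St]

theorem jobA3 : JobA3 := by
  intro I _ _ n δ hδ d
  have hn : (0 : ℝ) < (n : ℝ) + 1 := by positivity
  set Q : Finset I := Finset.univ.filter fun p => |d p| ≤ δ / Real.sqrt (n + 1) with hQ
  set M := ∑ p ∈ Q, d p ^ 2 with hM
  have hM0 : 0 ≤ M := Finset.sum_nonneg fun q _ => sq_nonneg _
  -- compare with the full sum
  have hflip : av (fun ω : I → Fin (n + 1) × Bool => |XX (St n) Q d ω|) ≤
      av (fun ω : I → Fin (n + 1) × Bool => |∑ p, tn n (ω p) * d p|) := by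
    have hsplit : ∀ ω : I → Fin (n + 1) × Bool, ∑ p, tn n (ω p) * d p =
        XX (St n) Q d ω + XX (St n) Qᶜ d ω := by
      intro ω
      simp only [XX]
      rw [Finset.sum_add_sum_compl]
      rfl
    have h1 : ∀ ω : I → Fin (n + 1) × Bool, ∑ p, tn n (flipO n Q ω p) * d p =
        XX (St n) Q d ω - XX (St n) Qᶜ d ω := by
      intro ω
      rw [hsplit]
      have h2 : XX (St n) Q d (flipO n Q ω) = XX (St n) Q d ω := by
        refine Finset.sum_congr rfl fun q hq => ?_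
        simp [flipO, hq]
      have h3 : XX (St n) Qᶜ d (flipO n Q ω) = -XX (St n) Qᶜ d ω := by
        simp only [XX, ← Finset.sum_neg_distrib]
        refine Finset.sum_congr rfl fun q hq => ?_
        have hq' : q ∉ Q := Finset.mem_compl.mp hq
        have : flipO n Q ω q = (St n).e (ω q) := by simp [flipO, hq']
        rw [this, (St n).h]; ring
      rw [h2, h3]; ring
    have h4 := av_equiv (flipO n Q) (fun ω : I → Fin (n + 1) × Bool => |∑ p, tn n (ω p) * d p|)
    have h5 : av (fun ω : I → Fin (n + 1) × Bool => 2 * |XX (St n) Q d ω|) ≤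
        av (fun ω : I → Fin (n + 1) × Bool => |∑ p, tn n (ω p) * d p| +
          |∑ p, tn n (flipO n Q ω p) * d p|) := by
      refine av_mono fun ω => ?_
      rw [h1, hsplit]
      have h6 : 2 * |XX (St n) Q d ω| = |(XX (St n) Q d ω + XX (St n) Qᶜ d ω) +
          (XX (St n) Q d ω - XX (St n) Qᶜ d ω)| := by
        rw [show (XX (St n) Q d ω + XX (St n) Qᶜ d ω) +
          (XX (St n) Q d ω - XX (St n) Qᶜ d ω) = 2 * XX (St n) Q d ω by ring, abs_mul]
        norm_num
      rw [h6]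
      exact abs_add_le _ _
    rw [av_mul_left, av_add, h4] at h5
    linarith
  refine le_trans ?_ hflip
  have h2 := mom2 (St n) Q d
  have h4 := mom4 (St n) Q d
  rw [St2] at h2
  rw [St2, St4] at h4
  have h5 : ∑ q ∈ Q, d q ^ 4 ≤ δ ^ 2 / (n + 1) * M := by
    rw [hM, Finset.mul_sum]
    refine Finset.sum_le_sum fun q hq => ?_
    have h6 : |d q| ≤ δ / Real.sqrt (n + 1) := by
      rw [hQ] at hq; exact (Finset.mem_filter.mp hq).2
    have h7 : d q ^ 2 ≤ δ ^ 2 / (n + 1) := by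
      have h8 := pow_le_pow_left₀ (abs_nonneg _) h6 2
      rw [sq_abs, div_pow, Real.sq_sqrt hn.le] at h8
      exact h8
    calc d q ^ 4 = d q ^ 2 * d q ^ 2 := by ring
      _ ≤ _ := mul_le_mul_of_nonneg_right h7 (sq_nonneg _)
  set b := Real.sqrt ((3 * M + δ ^ 2) / (n + 1)) with hb
  have hb0 : 0 < b := Real.sqrt_pos.mpr (by positivity)
  have hb2 : b ^ 2 = (3 * M + δ ^ 2) / (n + 1) := Real.sq_sqrt (by positivity)
  have h6 := av_abs_ge (St n) Q d (A4 := M / (n + 1) * b ^ 2) hb0 h2 (by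
    refine h4.trans ?_
    have h7 := mul_le_mul_of_nonneg_left h5 (show (0 : ℝ) ≤ 1 / (n + 1) by positivity)
    refine (add_le_add le_rfl h7).trans (le_of_eq ?_)
    rw [hb2, ← hM]
    field_simp)
  have h7 : 3 / 2 * (1 / (n + 1) * M / b) - 1 / 2 * (M / (n + 1) * b ^ 2 / b ^ 3) =
      M / (n + 1) / b := by
    field_simp
    norm_num
    ring
  have h8 : 3 / 2 * (1 / (n + 1) * ∑ q ∈ Q, d q ^ 2) = 3 / 2 * (1 / (n + 1) * M) := rfl
  rw [← hM, h7] at h6
  refine le_trans ?_ h6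
  have hs : Real.sqrt (3 * ((n : ℝ) + 1)) = Real.sqrt 3 * Real.sqrt (n + 1) :=
    Real.sqrt_mul (by norm_num) _
  have hbb : b = Real.sqrt (3 * M + δ ^ 2) / Real.sqrt (n + 1) := by
    rw [hb, Real.sqrt_div (by positivity)]
  have hsn : 0 < Real.sqrt ((n : ℝ) + 1) := Real.sqrt_pos.mpr hn
  have hsn2 : Real.sqrt ((n : ℝ) + 1) ^ 2 = n + 1 := Real.sq_sqrt hn.le
  have hT : 0 < Real.sqrt (3 * M + δ ^ 2) := Real.sqrt_pos.mpr (by positivity)
  have h3 : 0 < Real.sqrt 3 := by positivity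
  rw [hbb]
  have h9 : M / (n + 1) / (Real.sqrt (3 * M + δ ^ 2) / Real.sqrt (n + 1)) =
      M / (Real.sqrt (n + 1) * Real.sqrt (3 * M + δ ^ 2)) := by
    nth_rewrite 1 [← hsn2]
    field_simp
  rw [h9, hs, div_le_div_iff₀ (by positivity) (by positivity)]
  have hkey : (Real.sqrt M - δ) * Real.sqrt (3 * M + δ ^ 2) ≤ M * Real.sqrt 3 := by
    rcases le_total (Real.sqrt M) δ with h | h
    · have : (Real.sqrt M - δ) * Real.sqrt (3 * M + δ ^ 2) ≤ 0 :=
        mul_nonpos_of_nonpos_of_nonneg (by linarith) hT.le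
      exact this.trans (by positivity)
    · have hm : Real.sqrt M ^ 2 = M := Real.sq_sqrt hM0
      refine abs_le_of_sq_le_sq' ?_ (by positivity) |>.2
      rw [mul_pow, mul_pow, Real.sq_sqrt (by positivity), Real.sq_sqrt (by norm_num)]
      set m := Real.sqrt M with hmm
      rw [← hm]
      have e1 : (m - δ) ^ 2 ≤ m ^ 2 - δ ^ 2 := by nlinarith
      have e2 : (m - δ) ^ 2 * (3 * m ^ 2 + δ ^ 2) ≤ (m ^ 2 - δ ^ 2) * (3 * m ^ 2 + δ ^ 2) :=
        mul_le_mul_of_nonneg_right e1 (by positivity)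
      nlinarith [sq_nonneg (m * δ), sq_nonneg (δ ^ 2)]
  nlinarith [mul_le_mul_of_nonneg_right hkey hsn.le]

theorem jobA4 : JobA4 := by
  intro I _ _ n
  have hn : (0 : ℝ) < (n : ℝ) + 1 := by positivity
  have h2 : av (fun ω : I → Fin (n + 1) × Bool => ∑ p, tn n (ω p) ^ 2) =
      (Fintype.card I : ℝ) / (n + 1) := by
    have h := av_sum (Ω := I → Fin (n + 1) × Bool) Finset.univ
      (fun (p : I) (ω : I → Fin (n + 1) × Bool) => tn n (ω p) ^ 2)
    rw [h]
    have h1 : ∀ p : I, av (fun ω : I → Fin (n + 1) × Bool => tn n (ω p) ^ 2) = 1 / (n + 1) := by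
      intro p
      have h3 := av_prod (Ω := Fin (n + 1) × Bool) p (fun _ => (1 : ℝ)) (fun _ _ => rfl)
        (fun s => (St n).z s ^ 2)
      rw [St2, av_const, one_mul] at h3
      rw [← h3]
      congr 1; funext ω; rw [one_mul]; rfl
    simp only [h1, Finset.sum_const, Finset.card_univ, nsmul_eq_mul]
    ring
  refine ⟨fun d => ?_, h2, ?_⟩
  · have h1 := mom2 (St n) (Finset.univ : Finset I) d
    rw [St2] at h1
    have h3 := av_le_sqrt (fun ω : I → Fin (n + 1) × Bool => |∑ p, tn n (ω p) * d p|)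
    refine h3.trans (le_of_eq ?_)
    simp only [sq_abs]
    have h4 : av (fun ω : I → Fin (n + 1) × Bool => (∑ p, tn n (ω p) * d p) ^ 2) =
        1 / (n + 1) * ∑ q, d q ^ 2 := h1
    rw [h4, one_div, mul_comm, ← div_eq_mul_inv, Real.sqrt_div (Finset.sum_nonneg
      fun q _ => sq_nonneg _)]
  · refine (av_le_sqrt _).trans (le_of_eq ?_)
    congr 1
    rw [← h2]
    congr 1; funext ω
    exact Real.sq_sqrt (Finset.sum_nonneg fun q _ => sq_nonneg _)

end Pool.Agent.V5helper9.CS
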